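import Pool.Agent.W753.BG.Berg2

set_option autoImplicit false
open MeasureTheory Filter Topology Metric Set
open scoped ComplexConjugate ENNReal

namespace Pool.Agent.W753.BG

noncomputable section

variable {α : ℝ}

lemma one_sub_slit {x : ℂ} (hx : ‖x‖ < 1) : 1 - x ∈ Complex.slitPlane := by
  have := Complex.mem_slitPlane_of_norm_lt_one (z := -x) (by rwa [norm_neg])
  rwa [sub_eq_add_neg]

lemma ker_conj {x : ℂ} (hx : ‖x‖ < 1) : conj (ker α x) = ker α (conj x) := by
  unfold ker
  have h1 : (1 - x).arg ≠ Real.pi := Complex.mem_slitPlane_iff_arg.1 (one_sub_slit hx) |>.1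
  have h2 : conj (1 - x) ^ (((α + 2 : ℝ) : ℂ)) = conj ((1 - x) ^ conj ((α + 2 : ℝ) : ℂ)) :=
    Complex.conj_cpow _ _ h1
  rw [Complex.conj_ofReal] at h2
  rw [map_div₀, map_one, ← h2, map_sub, map_one]

lemma ker_diffAt {x : ℂ} (hx : ‖x‖ < 1) : DifferentiableAt ℂ (ker α) x := by
  unfold ker
  have h1 : DifferentiableAt ℂ (fun x : ℂ => (1 - x) ^ (((α + 2 : ℝ) : ℂ))) x :=
    DifferentiableAt.cpow_const (by fun_prop) (one_sub_slit hx)
  refine DifferentiableAt.div (by fun_prop) h1 ?_
  have h2 : (1 - x) ≠ 0 := Complex.slitPlane_ne_zero (one_sub_slit hx)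
  rw [Ne, Complex.cpow_eq_zero_iff]
  exact fun h => h2 h.1

/-- the holomorphic kernel difference -/
def hh (α : ℝ) (p q : ℂ) (z : ℂ) : ℂ := ker α (conj q * z) - ker α (conj p * z)

lemma hh_diffAt {p q z : ℂ} (hp : ‖p‖ < 1) (hq : ‖q‖ < 1) (hz : ‖z‖ ≤ 1) :
    DifferentiableAt ℂ (hh α p q) z := by
  have h1 : ∀ w : ℂ, ‖w‖ < 1 → DifferentiableAt ℂ (fun z => ker α (conj w * z)) z := by
    intro w hw
    have h2 : ‖conj w * z‖ < 1 := by
      rw [norm_mul, RCLike.norm_conj]
      nlinarith [norm_nonneg w, norm_nonneg z]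
    exact (ker_diffAt h2).comp z (by fun_prop)
  exact (h1 q hq).sub (h1 p hp)

lemma memLp_of_hol (hα : 4 < α) {g : ℂ → ℂ} (hg : ContinuousOn g (closedBall (0 : ℂ) 1)) :
    MemLp g 2 (mu α) := by
  have := finite_mu hα
  obtain ⟨C, hC⟩ := (isCompact_closedBall (0 : ℂ) 1).exists_bound_of_continuousOn hg
  refine MemLp.of_bound (C := C) ?_ ?_
  · have h1 : AEStronglyMeasurable g (volume.restrict (ball (0 : ℂ) 1)) :=
      (hg.mono ball_subset_closedBall).aestronglyMeasurable measurableSet_ball
    exact h1.mono_ac (withDensity_absolutelyContinuous _ _)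
  · filter_upwards [norm_le_one_ae (α := α)] with z hz
    exact hC z (by simpa using hz.le)

lemma main (hα : 4 < α) {p q : ℂ} (hp : ‖p‖ < 1) (hq : ‖q‖ < 1) (hp0 : p ≠ 0) (hqp : q ≠ p)
    (hk : ker α (conj q * p) = ker α (conj p * p)) :
    ∃ V : Submodule ℂ (Lp ℂ 2 (mu α)),
        IsClosed (V : Set (Lp ℂ 2 (mu α))) ∧
        (∀ f ∈ V, ∃ g : ℂ → ℂ,
            DifferentiableOn ℂ g (Metric.ball (0 : ℂ) 1) ∧ (f : ℂ → ℂ) =ᵐ[mu α] g) ∧
        (∀ f ∈ V, ∃ g ∈ V, (g : ℂ → ℂ) =ᵐ[mu α] fun z => z * f z) ∧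
        ¬ (V ≤ (Submodule.span ℂ
              {h : Lp ℂ 2 (mu α) | ∃ p : Polynomial ℂ, ∃ w ∈ V,
                (∀ f ∈ V, ∀ g ∈ V,
                    (g : ℂ → ℂ) =ᵐ[mu α] (fun z => z * f z) → inner ℂ g w = 0) ∧
                (h : ℂ → ℂ) =ᵐ[mu α] fun z => p.eval z * w z}).topologicalClosure) := by
  refine ⟨V hα hp, V_closed hα hp, ?_, ?_, ?_⟩
  · intro f hf
    exact ⟨G α f, G_diff (Lp_int hα f), hf.1⟩
  · intro f hf
    have h1 : MemLp (fun z => z * f z) 2 (mu α) := by
      refine (Lp.memLp f).of_le ?_ ?_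
      · exact (continuous_id.aestronglyMeasurable).mul (Lp.aestronglyMeasurable f)
      · filter_upwards [norm_le_one_ae (α := α)] with z hz
        rw [norm_mul]
        nlinarith [norm_nonneg (f z)]
    refine ⟨h1.toLp _, ?_, h1.coeFn_toLp⟩
    refine mem_V_of_hol hα hp (g := fun z => z * G α f z) ?_ ?_ ?_
    · exact differentiableOn_id.mul (G_diff (Lp_int hα f))
    · filter_upwards [h1.coeFn_toLp, hf.1] with z h2 h3
      rw [h2, h3]
    · rw [hf.2, mul_zero]
  · intro hle
    -- the functional of evaluation at `q`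
    have hcl : IsClosed {f : Lp ℂ 2 (mu α) | G α f q = 0} := by
      have : {f : Lp ℂ 2 (mu α) | G α f q = 0} = (fun f => inner ℂ (K hα hq) f) ⁻¹' {0} := by
        ext f
        simp only [Set.mem_ofPred_eq, mem_preimage, mem_singleton_iff, inner_K]
      rw [this]
      exact isClosed_singleton.preimage (innerSL ℂ (K hα hq)).continuous
    let Z : Submodule ℂ (Lp ℂ 2 (mu α)) := LinearMap.ker (innerSL ℂ (K hα hq)).toLinearMap
    have hZ : ∀ f, f ∈ Z ↔ G α f q = 0 := by
      intro f
      rw [← inner_K hα hq f]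
      rfl
    have hspan : (Submodule.span ℂ
              {h : Lp ℂ 2 (mu α) | ∃ p : Polynomial ℂ, ∃ w ∈ V hα hp,
                (∀ f ∈ V hα hp, ∀ g ∈ V hα hp,
                    (g : ℂ → ℂ) =ᵐ[mu α] (fun z => z * f z) → inner ℂ g w = 0) ∧
                (h : ℂ → ℂ) =ᵐ[mu α] fun z => p.eval z * w z}) ≤ Z := by
      rw [Submodule.span_le]
      rintro h ⟨P, w, hwV, hw, hh'⟩
      have hw0 : G α w q = 0 := by
        -- the test functions
        have hc1 : ContinuousOn (hh α p q) (closedBall (0 : ℂ) 1) := fun z hz =>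
          (hh_diffAt hp hq (by simpa using hz)).continuousAt.continuousWithinAt
        have hc2 : ContinuousOn (dslope (hh α p q) 0) (closedBall (0 : ℂ) 1) := by
          rw [continuousOn_dslope (closedBall_mem_nhds 0 one_pos)]
          exact ⟨hc1, hh_diffAt hp hq (by simp)⟩
        have hd1 : DifferentiableOn ℂ (hh α p q) (ball (0 : ℂ) 1) := fun z hz =>
          (hh_diffAt hp hq (by have : ‖z‖ < 1 := by simpa using hz
                               exact this.le)).differentiableWithinAt
        have hd2 : DifferentiableOn ℂ (dslope (hh α p q) 0) (ball (0 : ℂ) 1) := by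
          rw [Complex.differentiableOn_dslope (ball_mem_nhds 0 one_pos)]
          exact hd1
        have h00 : hh α p q 0 = 0 := by
          unfold hh
          simp
        have hp' : hh α p q p = 0 := by
          unfold hh
          rw [hk, sub_self]
        have hmul : ∀ z, z * dslope (hh α p q) 0 z = hh α p q z := by
          intro z
          have := sub_smul_dslope (hh α p q) 0 z
          rw [sub_zero, h00, sub_zero, smul_eq_mul] at this
          exact this
        have hdp : dslope (hh α p q) 0 p = 0 := by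
          have := hmul p
          rw [hp'] at this
          exact (mul_eq_zero.1 this).resolve_left hp0
        have m1 := memLp_of_hol hα hc1
        have m2 := memLp_of_hol hα hc2
        have e1 := m1.coeFn_toLp
        have e2 := m2.coeFn_toLp
        have v1 : m1.toLp _ ∈ V hα hp := mem_V_of_hol hα hp hd1 e1 hp'
        have v2 : m2.toLp _ ∈ V hα hp := mem_V_of_hol hα hp hd2 e2 hdp
        have h1 := hw _ v2 _ v1 (by
          filter_upwards [e1, e2] with z h1 h2
          rw [h1, h2, hmul])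
        have h2 : m1.toLp _ = K hα hq - K hα hp := by
          apply Lp.ext
          have h3 := Lp.coeFn_sub (K hα hq) (K hα hp)
          filter_upwards [e1, h3, (memLp_ker hα hq).coeFn_toLp, (memLp_ker hα hp).coeFn_toLp,
            norm_le_one_ae (α := α)] with z h4 h5 h6 h7 h8
          rw [h4, h5, Pi.sub_apply, K, K, h6, h7]
          have h9 : ∀ w : ℂ, ‖w‖ < 1 → conj (ker α (w * conj z)) = ker α (conj w * z) := by
            intro w hw
            rw [ker_conj, map_mul, Complex.conj_conj]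
            rw [norm_mul, RCLike.norm_conj]
            nlinarith [norm_nonneg w, norm_nonneg z]
          rw [h9 q hq, h9 p hp]
          rfl
        rw [h2, inner_sub_left, inner_K, inner_K, hwV.2, sub_zero] at h1
        exact h1
      show h ∈ Z
      rw [hZ]
      have h1 : G α h q = P.eval q * G α w q := by
        refine G_hol hα (g := fun z => P.eval z * G α w z) ?_ (Lp_int hα h) ?_ hq
        · exact P.differentiable.differentiableOn.mul (G_diff (Lp_int hα w))
        · filter_upwards [hh', hwV.1] with z h2 h3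
          rw [h2, h3]
      rw [h1, hw0, mul_zero]
    have hZc : IsClosed (Z : Set (Lp ℂ 2 (mu α))) := by
      have : (Z : Set (Lp ℂ 2 (mu α))) = {f : Lp ℂ 2 (mu α) | G α f q = 0} := by
        ext f
        exact hZ f
      rw [this]
      exact hcl
    have hVZ : V hα hp ≤ Z := hle.trans (Submodule.topologicalClosure_minimal _ hspan hZc)
    -- the function `z - p`
    have m3 : MemLp (fun z : ℂ => z - p) 2 (mu α) :=
      memLp_of_hol hα (by fun_prop)
    have v3 : m3.toLp _ ∈ V hα hp :=
      mem_V_of_hol hα hp (g := fun z => z - p) (by fun_prop) m3.coeFn_toLp (sub_self p)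
    have h4 := (hZ _).1 (hVZ v3)
    rw [G_hol hα (g := fun z => z - p) (by fun_prop) (Lp_int hα _) m3.coeFn_toLp hq] at h4
    exact hqp (sub_eq_zero.1 h4)

lemma exists_pq (hα : 4 < α) : ∃ p q : ℂ, ‖p‖ < 1 ∧ ‖q‖ < 1 ∧ p ≠ 0 ∧ q ≠ p ∧
    ker α (conj q * p) = ker α (conj p * p) := by
  have hpi := Real.pi_pos
  set θ : ℝ := 2 * Real.pi / (α + 2) with hθ
  have hs : 0 < α + 2 := by linarith
  have hθ0 : 0 < θ := by positivity
  have hθ1 : θ < Real.pi / 3 := by
    rw [hθ, div_lt_div_iff₀ hs (by norm_num)]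
    nlinarith
  have hcos : 1 / 2 < Real.cos θ := by
    rw [← Real.cos_pi_div_three]
    exact Real.cos_lt_cos_of_nonneg_of_le_pi_div_two hθ0.le (by linarith) hθ1
  set u : ℝ := (2 * Real.cos θ - 1) / 2 with hu
  have hu0 : 0 < u := by rw [hu]; linarith
  have hu1 : u ≤ 1 / 2 := by
    have := Real.cos_le_one θ
    rw [hu]; linarith
  set s : ℝ := Real.sqrt (1 - u) with hs'
  have hss : s ^ 2 = 1 - u := Real.sq_sqrt (by linarith)
  have hs0 : 0 < s := Real.sqrt_pos.2 (by linarith)
  set e : ℂ := Complex.exp (θ * Complex.I) with he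
  have hsc : (s : ℂ) ≠ 0 := by exact_mod_cast hs0.ne'
  have e1 : conj (conj ((1 - u * e) / s)) * (s : ℂ) = 1 - u * e := by
    rw [Complex.conj_conj]
    field_simp
  have e2 : conj (s : ℂ) * (s : ℂ) = 1 - u := by
    rw [Complex.conj_ofReal, ← sq]
    exact_mod_cast hss
  refine ⟨s, conj ((1 - u * e) / s), ?_, ?_, hsc, ?_, ?_⟩
  · rw [Complex.norm_real, Real.norm_of_nonneg hs0.le]
    nlinarith
  · rw [RCLike.norm_conj, norm_div, Complex.norm_real, Real.norm_of_nonneg hs0.le,
      div_lt_one hs0]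
    have h1 : ‖1 - u * e‖ ^ 2 = 1 - 2 * u * Real.cos θ + u ^ 2 := by
      rw [he, Complex.exp_mul_I, ← Complex.ofReal_cos, ← Complex.ofReal_sin,
        ← Complex.normSq_eq_norm_sq, Complex.normSq_apply]
      simp
      rw [Complex.cos_ofReal_re, Complex.sin_ofReal_re]
      linear_combination u ^ 2 * Real.sin_sq_add_cos_sq θ
    have h2 : ‖1 - u * e‖ ^ 2 < s ^ 2 := by
      rw [h1, hss]
      nlinarith
    exact lt_of_pow_lt_pow_left₀ 2 hs0.le h2
  · intro h
    have h1 : (1 : ℂ) - u * e = 1 - u := by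
      rw [← e1, h]
      rw [Complex.conj_ofReal, ← sq]
      exact_mod_cast hss
    have h2 := congrArg Complex.im h1
    rw [he, Complex.exp_mul_I, ← Complex.ofReal_cos, ← Complex.ofReal_sin] at h2
    simp at h2
    rcases h2 with h2 | h2
    · linarith
    · have := Real.sin_pos_of_pos_of_lt_pi hθ0 (by linarith)
      rw [Complex.sin_ofReal_re] at h2
      linarith
  · rw [e1, e2]
    unfold ker
    have h1 : (1 : ℂ) - (1 - u * e) = Complex.exp (Real.log u + θ * Complex.I) := by
      rw [Complex.exp_add, ← he, ← Complex.ofReal_exp, Real.exp_log hu0]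
      ring
    have h2 : (1 : ℂ) - (1 - u) = Complex.exp (Real.log u) := by
      rw [← Complex.ofReal_exp, Real.exp_log hu0]
      ring
    rw [h1, h2]
    congr 1
    rw [Complex.cpow_def_of_ne_zero (Complex.exp_ne_zero _),
      Complex.cpow_def_of_ne_zero (Complex.exp_ne_zero _), Complex.log_exp, Complex.log_exp]
    · rw [add_mul, Complex.exp_add]
      have h3 : Complex.exp (θ * Complex.I * ((α + 2 : ℝ) : ℂ)) = 1 := by
        rw [Complex.exp_eq_one_iff]
        refine ⟨1, ?_⟩
        have h4 : (θ : ℂ) * ((α + 2 : ℝ) : ℂ) = 2 * Real.pi := by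
          rw [hθ]
          have : ((α + 2 : ℝ) : ℂ) ≠ 0 := by exact_mod_cast hs.ne'
          push_cast at this ⊢
          field_simp
        linear_combination Complex.I * h4
      rw [h3, mul_one]
    all_goals simp
    all_goals linarith

end

end Pool.Agent.W753.BG
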