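import Mathlib

set_option autoImplicit false
open MeasureTheory Filter Topology Metric Set
open scoped ComplexConjugate ENNReal

namespace Pool.Agent.W753.BG

noncomputable section

/-- density of the weighted Bergman measure -/
def rho (α : ℝ) (z : ℂ) : ℝ := (1 + α) * (1 - ‖z‖ ^ 2) ^ α / Real.pi

/-- the weighted Bergman measure -/
def mu (α : ℝ) : Measure ℂ :=
  (volume.restrict (ball (0 : ℂ) 1)).withDensity (fun z : ℂ => ENNReal.ofReal (rho α z))

variable {α : ℝ}

lemma rho_meas : Measurable (rho α) := by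
  unfold rho
  fun_prop

lemma rho_nonneg (hα : 4 < α) {z : ℂ} (hz : z ∈ ball (0 : ℂ) 1) : 0 ≤ rho α z := by
  have h1 : ‖z‖ < 1 := by simpa using hz
  have h2 : 0 ≤ 1 - ‖z‖ ^ 2 := by nlinarith [norm_nonneg z]
  unfold rho
  have := Real.rpow_nonneg h2 α
  have := Real.pi_pos
  positivity

lemma rho_le (hα : 4 < α) {z : ℂ} (hz : z ∈ ball (0 : ℂ) 1) : rho α z ≤ (1 + α) / Real.pi := by
  have h1 : ‖z‖ < 1 := by simpa using hz
  have h2 : 0 ≤ 1 - ‖z‖ ^ 2 := by nlinarith [norm_nonneg z]
  have h3 : (1 - ‖z‖ ^ 2) ^ α ≤ 1 := Real.rpow_le_one h2 (by nlinarith [norm_nonneg z]) (by linarith)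
  unfold rho
  have := Real.pi_pos
  gcongr
  nlinarith

lemma ae_ball : ∀ᵐ z ∂(mu α), z ∈ ball (0 : ℂ) 1 := by
  have h : mu α ≪ volume.restrict (ball (0 : ℂ) 1) := withDensity_absolutelyContinuous _ _
  exact h.ae_le (ae_restrict_mem measurableSet_ball)

lemma finite_mu (hα : 4 < α) : IsFiniteMeasure (mu α) := by
  have : IsFiniteMeasure (volume.restrict (ball (0 : ℂ) 1)) :=
    ⟨by rw [Measure.restrict_apply_univ]; exact measure_ball_lt_top⟩
  refine isFiniteMeasure_withDensity_ofReal ?_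
  refine (Integrable.mono' (g := fun _ => (1 + α) / Real.pi) ?_ rho_meas.aestronglyMeasurable ?_).2
  · exact integrable_const _
  · filter_upwards [ae_restrict_mem measurableSet_ball] with z hz
    rw [Real.norm_of_nonneg (rho_nonneg hα hz)]
    exact rho_le hα hz

lemma integral_mu (hα : 4 < α) (F : ℂ → ℂ) :
    ∫ z, F z ∂(mu α) = ∫ z in ball (0 : ℂ) 1, (rho α z : ℂ) * F z := by
  unfold mu
  rw [integral_withDensity_eq_integral_toReal_smul (by have := @rho_meas α; fun_prop)
    (Eventually.of_forall fun z => ENNReal.ofReal_lt_top)]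
  refine setIntegral_congr_fun measurableSet_ball fun z hz => ?_
  simp only [ENNReal.toReal_ofReal (rho_nonneg hα hz)]
  exact Complex.real_smul

lemma integral_mu_real (hα : 4 < α) (F : ℂ → ℝ) :
    ∫ z, F z ∂(mu α) = ∫ z in ball (0 : ℂ) 1, rho α z * F z := by
  unfold mu
  rw [integral_withDensity_eq_integral_toReal_smul (by have := @rho_meas α; fun_prop)
    (Eventually.of_forall fun z => ENNReal.ofReal_lt_top)]
  refine setIntegral_congr_fun measurableSet_ball fun z hz => ?_
  simp only [ENNReal.toReal_ofReal (rho_nonneg hα hz)]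
  exact smul_eq_mul _ _

/-! ### radial moments -/

/-- radial integrals -/
def I (α : ℝ) (k : ℕ) : ℝ := ∫ r in (0 : ℝ)..1, r ^ (2 * k + 1) * (1 - r ^ 2) ^ α

lemma cont_rpow (hα : 4 < α) : Continuous fun r : ℝ => (1 - r ^ 2) ^ α := by
  refine Continuous.rpow_const (by fun_prop) fun r => Or.inr (by linarith)

lemma cont_int (hα : 4 < α) (n : ℕ) : Continuous fun r : ℝ => r ^ n * (1 - r ^ 2) ^ α :=
  (continuous_pow n).mul (cont_rpow hα)

lemma cont_c (hα : 4 < α) (c : ℝ) (n : ℕ) : Continuous fun r : ℝ => c * (r ^ n * (1 - r ^ 2) ^ α) :=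
  continuous_const.mul (cont_int hα n)

lemma deriv_aux (hα : 4 < α) (n : ℕ) (r : ℝ) (h0 : 0 ≤ r) (h1 : r ≤ 1) :
    HasDerivAt (fun r : ℝ => r ^ (n + 1) * (1 - r ^ 2) ^ (α + 1))
      ((n + 1 : ℝ) * (r ^ n * (1 - r ^ 2) ^ α)
        - (n + 1 + 2 * (α + 1)) * (r ^ (n + 2) * (1 - r ^ 2) ^ α)) r := by
  have h2 : HasDerivAt (fun r : ℝ => 1 - r ^ 2) (-(2 * r)) r := by
    have := (hasDerivAt_pow 2 r).const_sub 1
    simpa using this
  have h3 := h2.rpow_const (p := α + 1) (Or.inr (by linarith))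
  have h4 := (hasDerivAt_pow (n + 1) r).mul h3
  refine h4.congr_deriv ?_
  have h5 : 0 ≤ 1 - r ^ 2 := by nlinarith
  have h6 : (1 - r ^ 2) ^ (α + 1) = (1 - r ^ 2) ^ α * (1 - r ^ 2) :=
    Real.rpow_add_one' h5 (by linarith)
  rw [h6]
  simp only [add_sub_cancel_right, Nat.add_sub_cancel]
  push_cast
  ring

lemma recI (hα : 4 < α) (k : ℕ) : (k + α + 2) * I α (k + 1) = (k + 1) * I α k := by
  have h1 : ∫ r in (0 : ℝ)..1, (((2 * k + 1 : ℕ) + 1 : ℝ) * (r ^ (2 * k + 1) * (1 - r ^ 2) ^ α)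
        - ((2 * k + 1 : ℕ) + 1 + 2 * (α + 1)) * (r ^ (2 * k + 1 + 2) * (1 - r ^ 2) ^ α))
      = (1 : ℝ) ^ (2 * k + 1 + 1) * (1 - 1 ^ 2) ^ (α + 1) -
        (0 : ℝ) ^ (2 * k + 1 + 1) * (1 - 0 ^ 2) ^ (α + 1) := by
    refine intervalIntegral.integral_eq_sub_of_hasDerivAt
      (f := fun r : ℝ => r ^ (2 * k + 1 + 1) * (1 - r ^ 2) ^ (α + 1)) ?_ ?_
    · intro r hr
      rw [uIcc_of_le zero_le_one] at hr
      exact deriv_aux hα (2 * k + 1) r hr.1 hr.2
    · exact ((cont_c hα _ _).sub (cont_c hα _ _)).intervalIntegrable _ _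
  have h2 : (1 : ℝ) ^ (2 * k + 1 + 1) * (1 - 1 ^ 2) ^ (α + 1) -
        (0 : ℝ) ^ (2 * k + 1 + 1) * (1 - 0 ^ 2) ^ (α + 1) = 0 := by
    have : (1 - 1 ^ 2 : ℝ) ^ (α + 1) = 0 := by
      norm_num
      exact Real.zero_rpow (by linarith)
    rw [this]
    simp
  rw [h2, intervalIntegral.integral_sub ((cont_c hα _ _).intervalIntegrable _ _)
    ((cont_c hα _ _).intervalIntegrable _ _),
    intervalIntegral.integral_const_mul, intervalIntegral.integral_const_mul] at h1
  unfold I
  have h3 : 2 * (k + 1) + 1 = 2 * k + 1 + 2 := by ring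
  rw [h3]
  push_cast at h1
  linarith

lemma I_zero (hα : 4 < α) : 2 * (α + 1) * I α 0 = 1 := by
  have h1 : ∫ r in (0 : ℝ)..1, (-(2 * (α + 1)) * (r ^ (2 * 0 + 1) * (1 - r ^ 2) ^ α))
      = (1 - 1 ^ 2 : ℝ) ^ (α + 1) - (1 - 0 ^ 2) ^ (α + 1) := by
    refine intervalIntegral.integral_eq_sub_of_hasDerivAt
      (f := fun r : ℝ => (1 - r ^ 2) ^ (α + 1)) ?_ ?_
    · intro r hr
      have h2 : HasDerivAt (fun r : ℝ => 1 - r ^ 2) (-(2 * r)) r := by
        have := (hasDerivAt_pow 2 r).const_sub 1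
        simpa using this
      have h3 := h2.rpow_const (p := α + 1) (Or.inr (by linarith))
      refine h3.congr_deriv ?_
      rw [add_sub_cancel_right]
      ring
    · exact (cont_c hα _ _).intervalIntegrable _ _
  rw [intervalIntegral.integral_const_mul] at h1
  have h2 : (1 - 1 ^ 2 : ℝ) ^ (α + 1) = 0 := by
    norm_num
    exact Real.zero_rpow (by linarith)
  have h3 : (1 - 0 ^ 2 : ℝ) ^ (α + 1) = 1 := by
    norm_num
  rw [h2, h3] at h1
  unfold I
  linarith

/-- moments -/
def m (α : ℝ) (k : ℕ) : ℝ := ∫ z, ‖z‖ ^ (2 * k) ∂(mu α)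

lemma m_eq (hα : 4 < α) (k : ℕ) : m α k = 2 * (1 + α) * I α k := by
  unfold m
  rw [integral_mu_real hα, ← integral_indicator measurableSet_ball]
  have h1 : (fun z : ℂ => (ball (0 : ℂ) 1).indicator (fun z => rho α z * ‖z‖ ^ (2 * k)) z)
      = fun z : ℂ => (fun r : ℝ => (Iio (1 : ℝ)).indicator
          (fun r => (1 + α) * (1 - r ^ 2) ^ α / Real.pi * r ^ (2 * k)) r) ‖z‖ := by
    funext z
    by_cases hz : ‖z‖ < 1
    · rw [indicator_of_mem (by simpa using hz)]
      simp only []
      rw [indicator_of_mem (by simpa using hz)]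
      rfl
    · rw [indicator_of_notMem (by simpa using hz)]
      simp only []
      rw [indicator_of_notMem (by simpa using hz)]
  rw [h1, integral_fun_norm_addHaar]
  have h2 : (volume : Measure ℂ).real (ball 0 1) = Real.pi := by
    rw [Measure.real, Complex.volume_ball]
    simp
  rw [h2]
  simp only [Complex.finrank_real_complex, Nat.add_one_sub_one, pow_one, smul_eq_mul, nsmul_eq_mul]
  have h3 : ∫ y in Ioi (0 : ℝ), y * (Iio (1 : ℝ)).indicator
        (fun r => (1 + α) * (1 - r ^ 2) ^ α / Real.pi * r ^ (2 * k)) y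
      = ∫ y in (0 : ℝ)..1, (1 + α) / Real.pi * (y ^ (2 * k + 1) * (1 - y ^ 2) ^ α) := by
    rw [intervalIntegral.integral_of_le zero_le_one, integral_Ioc_eq_integral_Ioo]
    rw [← integral_indicator measurableSet_Ioi, ← integral_indicator measurableSet_Ioo]
    congr 1
    funext y
    by_cases h0 : 0 < y
    · by_cases h1 : y < 1
      · rw [indicator_of_mem (by exact h0), indicator_of_mem (by exact h1),
          indicator_of_mem (by exact ⟨h0, h1⟩)]
        ring
      · rw [indicator_of_mem (by exact h0), indicator_of_notMem (by exact h1),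
          indicator_of_notMem (fun h => h1 h.2)]
        simp
    · rw [indicator_of_notMem (by exact h0), indicator_of_notMem (fun h => h0 h.1)]
  rw [h3, intervalIntegral.integral_const_mul]
  unfold I
  have := Real.pi_ne_zero
  field_simp
  push_cast
  ring

lemma m_zero (hα : 4 < α) : m α 0 = 1 := by
  rw [m_eq hα]
  have := I_zero hα
  linarith

lemma m_succ (hα : 4 < α) (k : ℕ) : (k + α + 2) * m α (k + 1) = (k + 1) * m α k := by
  rw [m_eq hα, m_eq hα]
  have := recI hα k
  linear_combination 2 * (1 + α) * this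

/-! ### the kernel -/

/-- coefficients of the kernel -/
def c (α : ℝ) (k : ℕ) : ℂ := Ring.choose (((α + 2 : ℝ) : ℂ) + k - 1) k

lemma c_zero : c α 0 = 1 := by
  unfold c
  simp

lemma c_succ (k : ℕ) : ((k : ℂ) + 1) * c α (k + 1) = (k + α + 2) * c α k := by
  have h : ∀ n : ℕ, c α n = Ring.multichoose ((α + 2 : ℝ) : ℂ) n := by
    intro n
    unfold c
    rw [Ring.choose]
    congr 1
    ring
  rw [h, h]
  have h1 := Ring.factorial_nsmul_multichoose_eq_ascPochhammer ((α + 2 : ℝ) : ℂ) k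
  have h2 := Ring.factorial_nsmul_multichoose_eq_ascPochhammer ((α + 2 : ℝ) : ℂ) (k + 1)
  rw [ascPochhammer_succ_right, Polynomial.smeval_mul, ← h1] at h2
  rw [Nat.factorial_succ] at h2
  simp only [nsmul_eq_mul, Polynomial.smeval_add, Polynomial.smeval_X, pow_one,
    Polynomial.smeval_natCast, pow_zero, mul_one] at h2
  push_cast at h2
  have h3 : (k.factorial : ℂ) ≠ 0 := by exact_mod_cast k.factorial_ne_zero
  have h4 : (k.factorial : ℂ) * (((k : ℂ) + 1) * Ring.multichoose ((α : ℂ) + 2) (k + 1))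
      = (k.factorial : ℂ) * ((k + α + 2) * Ring.multichoose ((α : ℂ) + 2) k) := by
    linear_combination h2
  have := mul_left_cancel₀ h3 h4
  push_cast
  exact this

lemma c_mul_m (hα : 4 < α) (k : ℕ) : c α k * (m α k : ℂ) = 1 := by
  induction k with
  | zero => rw [c_zero, m_zero hα]; simp
  | succ k ih =>
    have h1 := c_succ (α := α) k
    have h2 := m_succ hα k
    have h3 : ((k : ℂ) + α + 2) * (m α (k + 1) : ℂ) = (k + 1) * (m α k : ℂ) := by exact_mod_cast h2
    have h4 : ((k : ℂ) + 1) ≠ 0 := by exact_mod_cast k.succ_ne_zero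
    have h5 : ((k : ℂ) + α + 2) ≠ 0 := by
      have : (k : ℝ) + α + 2 ≠ 0 := by positivity
      exact_mod_cast this
    have h6 : (((k : ℂ) + 1) * ((k : ℂ) + α + 2)) * (c α (k + 1) * (m α (k + 1) : ℂ))
        = (((k : ℂ) + 1) * ((k : ℂ) + α + 2)) * 1 := by
      calc _ = (((k : ℂ) + 1) * c α (k + 1)) * (((k : ℂ) + α + 2) * (m α (k + 1) : ℂ)) := by ring
        _ = ((k + α + 2) * c α k) * ((k + 1) * (m α k : ℂ)) := by rw [h1, h3]
        _ = (((k : ℂ) + 1) * ((k : ℂ) + α + 2)) * (c α k * (m α k : ℂ)) := by ring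
        _ = _ := by rw [ih]
    exact mul_left_cancel₀ (mul_ne_zero h4 h5) h6

/-- the kernel function of one variable -/
def ker (α : ℝ) (x : ℂ) : ℂ := 1 / (1 - x) ^ ((α + 2 : ℝ) : ℂ)

lemma ker_hasSum {x : ℂ} (hx : ‖x‖ < 1) : HasSum (fun k => c α k * x ^ k) (ker α x) := by
  have h := Complex.one_div_one_sub_cpow_hasFPowerSeriesOnBall_zero ((α + 2 : ℝ) : ℂ)
  have hx' : ‖x‖₊ < 1 := by exact_mod_cast hx
  have h1 := h.hasSum (y := x) (by
    simpa [Metric.mem_eball, edist_zero_right, enorm_eq_nnnorm] using hx')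
  simp only [zero_add] at h1
  have h2 : (fun k => c α k * x ^ k) = fun n => (FormalMultilinearSeries.ofScalars ℂ fun n : ℕ ↦
      Ring.choose (((α + 2 : ℝ) : ℂ) + n - 1) n) n (fun _ => x) := by
    funext n
    simp [c, FormalMultilinearSeries.ofScalars, List.ofFn_const, List.prod_replicate]
  rw [h2]
  exact h1

lemma summable_c {r : ℝ} (h0 : 0 ≤ r) (h1 : r < 1) : Summable fun k => ‖c α k‖ * r ^ k := by
  have h := (ker_hasSum (α := α) (x := (r : ℂ)) (by
    rw [Complex.norm_real, Real.norm_of_nonneg h0]; exact h1)).summable.norm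
  refine h.congr fun k => ?_
  rw [norm_mul, norm_pow, Complex.norm_real, Real.norm_of_nonneg h0]

/-- the reproducing transform -/
def G (α : ℝ) (F : ℂ → ℂ) (w : ℂ) : ℂ := ∫ z, F z * ker α (w * conj z) ∂(mu α)

/-- moments of `F` -/
def mom (α : ℝ) (F : ℂ → ℂ) (k : ℕ) : ℂ := ∫ z, F z * (conj z) ^ k ∂(mu α)

lemma norm_le_one_ae : ∀ᵐ z ∂(mu α), ‖z‖ < 1 := by
  filter_upwards [ae_ball (α := α)] with z hz
  simpa using hz

lemma int_mom {F : ℂ → ℂ} (hF : Integrable F (mu α)) (k : ℕ) :
    Integrable (fun z => F z * (conj z) ^ k) (mu α) := by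
  refine hF.mul_bdd (c := 1) ?_ ?_
  · exact (by fun_prop : Continuous fun z : ℂ => (conj z) ^ k).aestronglyMeasurable
  · filter_upwards [norm_le_one_ae (α := α)] with z hz
    rw [norm_pow, RCLike.norm_conj]
    exact pow_le_one₀ (norm_nonneg _) hz.le

lemma G_hasSum {F : ℂ → ℂ} (hF : Integrable F (mu α)) {w : ℂ} (hw : ‖w‖ < 1) :
    HasSum (fun k => c α k * w ^ k * mom α F k) (G α F w) := by
  have h := hasSum_integral_of_summable_integral_norm (μ := mu α)
    (F := fun k z => c α k * w ^ k * (F z * (conj z) ^ k)) ?_ ?_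
  · have h1 : (fun k => ∫ z, c α k * w ^ k * (F z * (conj z) ^ k) ∂(mu α))
        = fun k => c α k * w ^ k * mom α F k := by
      funext k
      rw [integral_const_mul]
      rfl
    rw [h1] at h
    have h0 : G α F w = ∫ z, ∑' k, c α k * w ^ k * (F z * (conj z) ^ k) ∂(mu α) := by
      unfold G
      refine integral_congr_ae ?_
      filter_upwards [norm_le_one_ae (α := α)] with z hz
      have h2 : ‖w * conj z‖ < 1 := by
        rw [norm_mul, RCLike.norm_conj]
        nlinarith [norm_nonneg w, norm_nonneg z]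
      have h3 := (ker_hasSum (α := α) h2).mul_left (F z)
      rw [← h3.tsum_eq]
      refine tsum_congr fun k => ?_
      rw [mul_pow]
      ring
    rw [h0]
    exact h
  · intro k
    exact (int_mom hF k).const_mul _
  · have h4 := (summable_c (α := α) (norm_nonneg w) hw).mul_right (∫ z, ‖F z‖ ∂(mu α))
    refine Summable.of_nonneg_of_le (fun k => integral_nonneg fun z => norm_nonneg _) (fun k => ?_) h4
    rw [← integral_const_mul]
    refine integral_mono_ae ((int_mom hF k).const_mul _).norm (hF.norm.const_mul _) ?_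
    filter_upwards [norm_le_one_ae (α := α)] with z hz
    simp only [norm_mul, norm_pow, RCLike.norm_conj]
    have h5 : ‖z‖ ^ k ≤ 1 := pow_le_one₀ (norm_nonneg _) hz.le
    have h6 : 0 ≤ ‖c α k‖ * ‖w‖ ^ k := by positivity
    calc ‖c α k‖ * ‖w‖ ^ k * (‖F z‖ * ‖z‖ ^ k) ≤ ‖c α k‖ * ‖w‖ ^ k * (‖F z‖ * 1) := by gcongr
      _ = _ := by ring

lemma G_diff {F : ℂ → ℂ} (hF : Integrable F (mu α)) :
    DifferentiableOn ℂ (G α F) (ball (0 : ℂ) 1) := by
  intro w hw
  have hw1 : ‖w‖ < 1 := by simpa using hw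
  obtain ⟨r, hr1, hr2⟩ := exists_between hw1
  have hr0 : 0 ≤ r := (norm_nonneg w).trans hr1.le
  have h1 : DifferentiableOn ℂ (fun w : ℂ => ∑' k, c α k * w ^ k * mom α F k) (ball (0 : ℂ) r) := by
    refine Complex.differentiableOn_tsum_of_summable_norm
      (u := fun k => ‖c α k‖ * r ^ k * ∫ z, ‖F z‖ ∂(mu α))
      ((summable_c (α := α) hr0 hr2).mul_right _) (fun k => ?_) isOpen_ball (fun k x hx => ?_)
    · fun_prop
    · have hx1 : ‖x‖ < r := by simpa using hx
      rw [norm_mul, norm_mul, norm_pow]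
      have h2 : ‖mom α F k‖ ≤ ∫ z, ‖F z‖ ∂(mu α) := by
        unfold mom
        refine (norm_integral_le_integral_norm _).trans ?_
        refine integral_mono_ae (int_mom hF k).norm hF.norm ?_
        filter_upwards [norm_le_one_ae (α := α)] with z hz
        simp only [norm_mul, norm_pow, RCLike.norm_conj]
        have h5 : ‖z‖ ^ k ≤ 1 := pow_le_one₀ (norm_nonneg _) hz.le
        nlinarith [norm_nonneg (F z)]
      have h3 : ‖x‖ ^ k ≤ r ^ k := pow_le_pow_left₀ (norm_nonneg _) hx1.le _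
      gcongr
  have h2 : DifferentiableAt ℂ (fun w : ℂ => ∑' k, c α k * w ^ k * mom α F k) w :=
    (h1 w (by simpa using hr1)).differentiableAt (isOpen_ball.mem_nhds (by simpa using hr1))
  have h3 : G α F =ᶠ[𝓝 w] fun w : ℂ => ∑' k, c α k * w ^ k * mom α F k := by
    filter_upwards [isOpen_ball.mem_nhds hw] with x hx
    exact (G_hasSum hF (by simpa using hx)).tsum_eq.symm
  exact (h2.congr_of_eventuallyEq h3).differentiableWithinAt

/-! ### holomorphic functions -/

/-- Taylor coefficients at the origin -/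
def a (g : ℂ → ℂ) (k : ℕ) : ℂ := iteratedDeriv k g 0 / (k.factorial : ℂ)

lemma taylor {g : ℂ → ℂ} (hg : DifferentiableOn ℂ g (ball (0 : ℂ) 1)) {w : ℂ} (hw : ‖w‖ < 1) :
    HasSum (fun k => a g k * w ^ k) (g w) := by
  have h := Complex.hasSum_taylorSeries_on_ball (c := 0) (r := 1) (f := g) (by simpa using hg)
    (z := w) (by simpa using hw)
  have h1 : (fun k => a g k * w ^ k)
      = fun n => (n.factorial : ℂ)⁻¹ • (w - 0) ^ n • iteratedDeriv n g 0 := by
    funext k
    unfold a
    rw [smul_eq_mul, smul_eq_mul, sub_zero]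
    ring
  rw [h1]
  exact h

lemma exp_int (n k : ℕ) :
    ∫ θ in (0 : ℝ)..2 * Real.pi, Complex.exp (θ * Complex.I) ^ n *
      (Complex.exp (-(θ * Complex.I))) ^ k = if n = k then 2 * Real.pi else 0 := by
  have h1 : ∀ θ : ℝ, Complex.exp (θ * Complex.I) ^ n * (Complex.exp (-(θ * Complex.I))) ^ k
      = Complex.exp ((((n : ℂ) - k) * Complex.I) * θ) := by
    intro θ
    rw [← Complex.exp_nat_mul, ← Complex.exp_nat_mul, ← Complex.exp_add]
    congr 1
    ring
  simp only [h1]
  split_ifs with h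
  · subst h
    simp
  · have h2 : ((n : ℂ) - k) * Complex.I ≠ 0 := by
      refine mul_ne_zero ?_ Complex.I_ne_zero
      rw [sub_ne_zero]
      exact_mod_cast h
    rw [integral_exp_mul_complex h2]
    have h3 : Complex.exp ((((n : ℂ) - k) * Complex.I) * ((2 * Real.pi : ℝ) : ℂ)) = 1 := by
      rw [Complex.exp_eq_one_iff]
      refine ⟨(n : ℤ) - k, ?_⟩
      push_cast
      ring
    rw [h3]
    simp

/-- Fourier coefficient of `θ ↦ g (e^{iθ} z)` -/
lemma fourier {g : ℂ → ℂ} (hg : DifferentiableOn ℂ g (ball (0 : ℂ) 1)) {z : ℂ} (hz : ‖z‖ < 1)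
    (k : ℕ) :
    ∫ θ in (0 : ℝ)..2 * Real.pi, g (Complex.exp (θ * Complex.I) * z) *
      (Complex.exp (-(θ * Complex.I))) ^ k = 2 * Real.pi * (a g k * z ^ k) := by
  have hpi : (0 : ℝ) ≤ 2 * Real.pi := by positivity
  have hn : ∀ θ : ℝ, ‖Complex.exp (θ * Complex.I)‖ = 1 := Complex.norm_exp_ofReal_mul_I
  have hn' : ∀ θ : ℝ, ‖Complex.exp (-(θ * Complex.I))‖ = 1 := by
    intro θ
    have := Complex.norm_exp_ofReal_mul_I (-θ)
    rw [← this]
    congr 2
    push_cast
    ring
  have hsum : Summable fun n => ‖a g n‖ * ‖z‖ ^ n := by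
    have h := (taylor hg (w := (‖z‖ : ℂ)) (by
      rw [Complex.norm_real, norm_norm]; exact hz)).summable.norm
    refine h.congr fun n => ?_
    rw [norm_mul, norm_pow, Complex.norm_real, norm_norm]
  have hcont : ∀ n : ℕ, Continuous fun θ : ℝ => a g n * z ^ n * (Complex.exp (θ * Complex.I) ^ n *
      (Complex.exp (-(θ * Complex.I))) ^ k) := by
    intro n
    fun_prop
  have h := hasSum_integral_of_summable_integral_norm
    (μ := volume.restrict (Ioc (0 : ℝ) (2 * Real.pi)))
    (F := fun (n : ℕ) (θ : ℝ) => a g n * z ^ n * (Complex.exp (θ * Complex.I) ^ n *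
      (Complex.exp (-(θ * Complex.I))) ^ k)) ?_ ?_
  · have h1 : (fun n : ℕ => ∫ θ in Ioc (0 : ℝ) (2 * Real.pi), a g n * z ^ n *
        (Complex.exp (θ * Complex.I) ^ n * (Complex.exp (-(θ * Complex.I))) ^ k))
        = fun n => if n = k then 2 * Real.pi * (a g k * z ^ k) else 0 := by
      funext n
      rw [← intervalIntegral.integral_of_le hpi, intervalIntegral.integral_const_mul, exp_int]
      split_ifs with h
      · subst h; push_cast; ring
      · simp
    rw [h1] at h
    have h2 := h.unique (hasSum_ite_eq k (2 * Real.pi * (a g k * z ^ k)))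
    rw [← h2, intervalIntegral.integral_of_le hpi]
    refine integral_congr_ae (Eventually.of_forall fun θ => ?_)
    have h3 : ‖Complex.exp (θ * Complex.I) * z‖ < 1 := by
      rw [norm_mul, hn, one_mul]; exact hz
    have h4 := (taylor hg h3).mul_right ((Complex.exp (-(θ * Complex.I))) ^ k)
    simp only []
    rw [← h4.tsum_eq]
    refine tsum_congr fun n => ?_
    rw [mul_pow]
    ring
  · intro n
    exact (hcont n).integrableOn_Ioc
  · have h5 := hsum.mul_right (2 * Real.pi)
    refine h5.congr fun n => ?_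
    have h6 : ∀ θ : ℝ, ‖a g n * z ^ n * (Complex.exp (θ * Complex.I) ^ n *
        (Complex.exp (-(θ * Complex.I))) ^ k)‖ = ‖a g n‖ * ‖z‖ ^ n := by
      intro θ
      rw [norm_mul, norm_mul, norm_mul, norm_pow, norm_pow, norm_pow, hn, hn']
      simp
    simp only [h6]
    rw [setIntegral_const]
    simp [Real.volume_real_Ioc, hpi]
    ring

/-- rotation invariance -/
lemma mp_rot (θ : ℝ) :
    MeasurePreserving (fun z : ℂ => Complex.exp (θ * Complex.I) * z) (mu α) (mu α) := by
  have h1 : ‖Complex.exp (θ * Complex.I)‖ = 1 := Complex.norm_exp_ofReal_mul_I θ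
  have hm : Measurable fun z : ℂ => Complex.exp (θ * Complex.I) * z := by fun_prop
  have h2 : MeasurePreserving (fun z : ℂ => Complex.exp (θ * Complex.I) * z)
      (volume : Measure ℂ) volume := by
    have h3 := (rotation (Circle.exp θ)).measurePreserving
    have h4 : (rotation (Circle.exp θ) : ℂ → ℂ) = fun z : ℂ => Complex.exp (θ * Complex.I) * z := by
      funext z
      rw [rotation_apply, Circle.coe_exp]
    rw [← h4]
    exact h3
  have h5 : ∀ z, ‖Complex.exp (θ * Complex.I) * z‖ = ‖z‖ := fun z => by rw [norm_mul, h1, one_mul]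
  refine ⟨hm, ?_⟩
  ext s hs
  rw [Measure.map_apply hm hs]
  unfold mu
  have hr : Measurable fun z : ℂ => ENNReal.ofReal (rho α z) := by have := @rho_meas α; fun_prop
  rw [withDensity_apply _ (hm hs), withDensity_apply _ hs, Measure.restrict_restrict (hm hs),
    Measure.restrict_restrict hs, ← lintegral_indicator ((hm hs).inter measurableSet_ball),
    ← lintegral_indicator (hs.inter measurableSet_ball)]
  have h6 := h2.lintegral_comp
    (f := (s ∩ ball (0 : ℂ) 1).indicator fun z : ℂ => ENNReal.ofReal (rho α z))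
    (hr.indicator (hs.inter measurableSet_ball))
  rw [← h6]
  congr 1
  funext z
  by_cases hz : z ∈ (fun z : ℂ => Complex.exp (θ * Complex.I) * z) ⁻¹' s ∩ ball (0 : ℂ) 1
  · have hz' : Complex.exp (θ * Complex.I) * z ∈ s ∩ ball (0 : ℂ) 1 := ⟨hz.1, by
      rw [mem_ball_zero_iff, h5]; simpa using hz.2⟩
    rw [indicator_of_mem hz, indicator_of_mem hz']
    unfold rho
    rw [h5]
  · rw [indicator_of_notMem hz, indicator_of_notMem]
    intro h
    apply hz
    refine ⟨h.1, ?_⟩
    have := h.2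
    rw [mem_ball_zero_iff, h5] at this
    simpa using this

lemma emb (θ : ℝ) : MeasurableEmbedding (fun z : ℂ => Complex.exp (θ * Complex.I) * z) :=
  (Homeomorph.mulLeft₀ _ (Complex.exp_ne_zero (θ * Complex.I))).measurableEmbedding

lemma mom_hol (hα : 4 < α) {g : ℂ → ℂ} (hg : DifferentiableOn ℂ g (ball (0 : ℂ) 1))
    (hgi : Integrable g (mu α)) (k : ℕ) : mom α g k = a g k * (m α k : ℂ) := by
  classical
  have := finite_mu hα
  have hpi : (0 : ℝ) ≤ 2 * Real.pi := by positivity
  set g' : ℂ → ℂ := (ball (0 : ℂ) 1).piecewise g 0 with hg'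
  have hmeas : Measurable g' := by
    refine ContinuousOn.measurable_piecewise hg.continuousOn ?_ measurableSet_ball
    exact continuousOn_const
  have heq : ∀ z : ℂ, ‖z‖ < 1 → g' z = g z := fun z hz =>
    piecewise_eq_of_mem _ _ _ (by simpa using hz)
  have hae : g' =ᵐ[mu α] g := by
    filter_upwards [norm_le_one_ae (α := α)] with z hz using heq z hz
  have hgi' : Integrable g' (mu α) := hgi.congr hae.symm
  have hn : ∀ θ : ℝ, ‖Complex.exp (θ * Complex.I)‖ = 1 := Complex.norm_exp_ofReal_mul_I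
  have hconj : ∀ θ : ℝ, conj (Complex.exp (θ * Complex.I)) = Complex.exp (-(θ * Complex.I)) := by
    intro θ
    rw [← Complex.exp_conj]
    simp
  -- the function on the product
  let f : ℝ → ℂ → ℂ := fun θ z =>
    g' (Complex.exp (θ * Complex.I) * z) * (conj (Complex.exp (θ * Complex.I) * z)) ^ k
  have hfm : Measurable (Function.uncurry f) := by
    have h1 : Measurable fun p : ℝ × ℂ => Complex.exp (p.1 * Complex.I) * p.2 := by fun_prop
    have h2 : Measurable fun z : ℂ => g' z * (conj z) ^ k :=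
      hmeas.mul (by fun_prop : Continuous fun z : ℂ => (conj z) ^ k).measurable
    exact h2.comp h1
  have h1 : ∀ θ : ℝ, ∫ z, f θ z ∂(mu α) = mom α g k := by
    intro θ
    have h2 := (mp_rot (α := α) θ).integral_comp (emb θ) (fun z => g' z * (conj z) ^ k)
    rw [h2]
    unfold mom
    refine integral_congr_ae ?_
    filter_upwards [hae] with z hz
    rw [hz]
  have h2 : ∀ θ : ℝ, Integrable (f θ) (mu α) := by
    intro θ
    exact (mp_rot (α := α) θ).integrable_comp_of_integrable (int_mom hgi' k)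
  have h3 : ∀ θ : ℝ, ∫ z, ‖f θ z‖ ∂(mu α) = ∫ z, ‖g' z * (conj z) ^ k‖ ∂(mu α) := by
    intro θ
    exact (mp_rot (α := α) θ).integral_comp (emb θ) (fun z => ‖g' z * (conj z) ^ k‖)
  have : IsFiniteMeasure (volume.restrict (Ioc (0 : ℝ) (2 * Real.pi))) := by
    constructor
    rw [Measure.restrict_apply_univ]
    exact measure_Ioc_lt_top
  have h4 : Integrable (Function.uncurry f)
      ((volume.restrict (Ioc (0 : ℝ) (2 * Real.pi))).prod (mu α)) := by
    rw [integrable_prod_iff hfm.aestronglyMeasurable]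
    refine ⟨Eventually.of_forall fun θ => h2 θ, ?_⟩
    have : (fun θ : ℝ => ∫ z, ‖Function.uncurry f (θ, z)‖ ∂(mu α))
        = fun _ => ∫ z, ‖g' z * (conj z) ^ k‖ ∂(mu α) := by
      funext θ
      exact h3 θ
    rw [this]
    exact integrable_const _
  have h5 := integral_integral_swap h4
  have h6 : ∫ θ in Ioc (0 : ℝ) (2 * Real.pi), (∫ z, f θ z ∂(mu α)) = 2 * Real.pi * mom α g k := by
    simp only [h1]
    rw [setIntegral_const]
    simp [Real.volume_real_Ioc, hpi]
  have h7 : ∫ z, (∫ θ in Ioc (0 : ℝ) (2 * Real.pi), f θ z) ∂(mu α)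
      = 2 * Real.pi * (a g k * (m α k : ℂ)) := by
    have h8 : ∫ z, (∫ θ in Ioc (0 : ℝ) (2 * Real.pi), f θ z) ∂(mu α)
        = ∫ z, 2 * Real.pi * a g k * ((‖z‖ ^ (2 * k) : ℝ) : ℂ) ∂(mu α) := by
      refine integral_congr_ae ?_
      filter_upwards [norm_le_one_ae (α := α)] with z hz
      have h9 : ∀ θ : ℝ, f θ z = (conj z) ^ k * (g (Complex.exp (θ * Complex.I) * z) *
          (Complex.exp (-(θ * Complex.I))) ^ k) := by
        intro θ
        simp only [f]
        rw [heq _ (by rw [norm_mul, hn, one_mul]; exact hz), map_mul, hconj]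
        ring
      simp only [h9]
      rw [integral_const_mul, ← intervalIntegral.integral_of_le hpi, fourier hg hz k]
      have h10 : conj z * z = ((‖z‖ ^ 2 : ℝ) : ℂ) := by
        rw [mul_comm, Complex.mul_conj, Complex.normSq_eq_norm_sq]
      calc (conj z) ^ k * (2 * Real.pi * (a g k * z ^ k))
          = 2 * Real.pi * a g k * (conj z * z) ^ k := by rw [mul_pow]; ring
        _ = _ := by
          rw [h10]
          push_cast
          rw [pow_mul]
    have h11 : ∫ z, ((‖z‖ ^ (2 * k) : ℝ) : ℂ) ∂(mu α) = ((m α k : ℝ) : ℂ) := integral_ofReal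
    rw [h8, integral_const_mul, h11]
    ring
  rw [h6, h7] at h5
  have h8 : (2 * Real.pi : ℂ) ≠ 0 := by
    have := Real.pi_pos
    exact_mod_cast (by positivity : (2 * Real.pi) ≠ 0)
  exact mul_left_cancel₀ h8 h5

/-- the reproducing property -/
lemma G_hol (hα : 4 < α) {F g : ℂ → ℂ} (hg : DifferentiableOn ℂ g (ball (0 : ℂ) 1))
    (hF : Integrable F (mu α)) (h : F =ᵐ[mu α] g) {w : ℂ} (hw : ‖w‖ < 1) : G α F w = g w := by
  have hgi : Integrable g (mu α) := hF.congr h
  have h0 : G α F w = G α g w := by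
    unfold G
    refine integral_congr_ae ?_
    filter_upwards [h] with z hz
    rw [hz]
  have h1 := G_hasSum hgi hw
  have h2 := taylor hg hw
  have h3 : (fun k => c α k * w ^ k * mom α g k) = fun k => a g k * w ^ k := by
    funext k
    rw [mom_hol hα hg hgi]
    calc c α k * w ^ k * (a g k * (m α k : ℂ)) = (c α k * (m α k : ℂ)) * (a g k * w ^ k) := by ring
      _ = _ := by rw [c_mul_m hα, one_mul]
  rw [h3] at h1
  rw [h0]
  exact h1.unique h2

end

end Pool.Agent.W753.BG
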