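import Pool.Agent.W753.BG.Berg

set_option autoImplicit false
open MeasureTheory Filter Topology Metric Set
open scoped ComplexConjugate ENNReal

namespace Pool.Agent.W753.BG

noncomputable section

variable {α : ℝ}

/-- membership in the zero-based subspace -/
def Mem (α : ℝ) (p : ℂ) (f : Lp ℂ 2 (mu α)) : Prop := (f : ℂ → ℂ) =ᵐ[mu α] G α f ∧ G α f p = 0

lemma Lp_int (hα : 4 < α) (f : Lp ℂ 2 (mu α)) : Integrable f (mu α) := by
  have := finite_mu hα
  exact (Lp.memLp f).integrable (by norm_num)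

lemma int_ker (hα : 4 < α) {F : ℂ → ℂ} (hF : Integrable F (mu α)) {w : ℂ} (hw : ‖w‖ < 1) :
    Integrable (fun z => F z * ker α (w * conj z)) (mu α) := by
  have h0 := summable_c (α := α) (norm_nonneg w) hw
  refine hF.mul_bdd (c := ∑' k, ‖c α k‖ * ‖w‖ ^ k) ?_ ?_
  · have : Measurable fun z : ℂ => ker α (w * conj z) := by
      unfold ker
      fun_prop
    exact this.aestronglyMeasurable
  · filter_upwards [norm_le_one_ae (α := α)] with z hz
    have h2 : ‖w * conj z‖ < 1 := by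
      rw [norm_mul, RCLike.norm_conj]
      nlinarith [norm_nonneg w, norm_nonneg z]
    have h3 := ker_hasSum (α := α) h2
    rw [← h3.tsum_eq]
    refine tsum_of_norm_bounded h0.hasSum fun k => ?_
    rw [norm_mul, norm_pow, norm_mul, RCLike.norm_conj]
    have : ‖w‖ * ‖z‖ ≤ ‖w‖ := by nlinarith [norm_nonneg w]
    gcongr

lemma G_add (hα : 4 < α) {F F' : ℂ → ℂ} (hF : Integrable F (mu α)) (hF' : Integrable F' (mu α))
    {w : ℂ} (hw : ‖w‖ < 1) : G α (fun z => F z + F' z) w = G α F w + G α F' w := by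
  unfold G
  rw [← integral_add (int_ker hα hF hw) (int_ker hα hF' hw)]
  congr 1
  funext z
  ring

lemma G_smul (F : ℂ → ℂ) (x w : ℂ) : G α (fun z => x * F z) w = x * G α F w := by
  unfold G
  rw [← integral_const_mul]
  congr 1
  funext z
  ring

lemma G_congr {F F' : ℂ → ℂ} (h : F =ᵐ[mu α] F') (w : ℂ) : G α F w = G α F' w := by
  unfold G
  refine integral_congr_ae ?_
  filter_upwards [h] with z hz
  rw [hz]

/-- the zero-based subspace -/
def V (hα : 4 < α) {p : ℂ} (hp : ‖p‖ < 1) : Submodule ℂ (Lp ℂ 2 (mu α)) where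
  carrier := {f | Mem α p f}
  zero_mem' := by
    have h0 : ((0 : Lp ℂ 2 (mu α)) : ℂ → ℂ) =ᵐ[mu α] fun _ => 0 := Lp.coeFn_zero _ _ _
    have h1 : ∀ w, G α ((0 : Lp ℂ 2 (mu α)) : ℂ → ℂ) w = 0 := by
      intro w
      rw [G_congr h0]
      unfold G
      simp
    refine ⟨?_, h1 p⟩
    filter_upwards [h0] with z hz
    rw [hz, h1]
  add_mem' := by
    rintro f g ⟨hf, hf'⟩ ⟨hg, hg'⟩
    have h0 := Lp.coeFn_add f g
    have h1 : ∀ w : ℂ, ‖w‖ < 1 → G α ((f + g : Lp ℂ 2 (mu α)) : ℂ → ℂ) w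
        = G α f w + G α g w := by
      intro w hw
      rw [G_congr h0]
      exact G_add hα (Lp_int hα f) (Lp_int hα g) hw
    refine ⟨?_, by rw [h1 p hp, hf', hg', add_zero]⟩
    filter_upwards [h0, hf, hg, norm_le_one_ae (α := α)] with z h2 h3 h4 h5
    rw [h2, h1 z h5, Pi.add_apply, ← h3, ← h4]
  smul_mem' := by
    rintro x f ⟨hf, hf'⟩
    have h0 := Lp.coeFn_smul x f
    have h1 : ∀ w : ℂ, G α ((x • f : Lp ℂ 2 (mu α)) : ℂ → ℂ) w = x * G α f w := by
      intro w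
      rw [G_congr h0]
      exact G_smul _ x w
    refine ⟨?_, by rw [h1 p, hf', mul_zero]⟩
    filter_upwards [h0, hf] with z h2 h3
    rw [h2, h1 z, Pi.smul_apply, ← h3, smul_eq_mul]

/-- the kernel as an element of the space -/
lemma memLp_ker (hα : 4 < α) {w : ℂ} (hw : ‖w‖ < 1) :
    MemLp (fun z => conj (ker α (w * conj z))) 2 (mu α) := by
  have := finite_mu hα
  have h0 := summable_c (α := α) (norm_nonneg w) hw
  refine MemLp.of_bound (C := ∑' k, ‖c α k‖ * ‖w‖ ^ k) ?_ ?_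
  · have : Measurable fun z : ℂ => conj (ker α (w * conj z)) := by
      unfold ker
      fun_prop
    exact this.aestronglyMeasurable
  · filter_upwards [norm_le_one_ae (α := α)] with z hz
    have h2 : ‖w * conj z‖ < 1 := by
      rw [norm_mul, RCLike.norm_conj]
      nlinarith [norm_nonneg w, norm_nonneg z]
    have h3 := ker_hasSum (α := α) h2
    rw [RCLike.norm_conj, ← h3.tsum_eq]
    refine tsum_of_norm_bounded h0.hasSum fun k => ?_
    rw [norm_mul, norm_pow, norm_mul, RCLike.norm_conj]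
    have : ‖w‖ * ‖z‖ ≤ ‖w‖ := by nlinarith [norm_nonneg w]
    gcongr

/-- the kernel vector -/
def K (hα : 4 < α) {w : ℂ} (hw : ‖w‖ < 1) : Lp ℂ 2 (mu α) := (memLp_ker hα hw).toLp _

lemma inner_K (hα : 4 < α) {w : ℂ} (hw : ‖w‖ < 1) (f : Lp ℂ 2 (mu α)) :
    inner ℂ (K hα hw) f = G α f w := by
  rw [L2.inner_def]
  unfold G
  refine integral_congr_ae ?_
  filter_upwards [(memLp_ker hα hw).coeFn_toLp] with z hz
  rw [K, hz, RCLike.inner_apply, Complex.conj_conj]

lemma V_closed (hα : 4 < α) {p : ℂ} (hp : ‖p‖ < 1) : IsClosed (V hα hp : Set (Lp ℂ 2 (mu α))) := by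
  refine IsSeqClosed.isClosed ?_
  intro u f hu huf
  have h1 : ∀ w : ℂ, ‖w‖ < 1 → Tendsto (fun n => G α (u n) w) atTop (𝓝 (G α f w)) := by
    intro w hw
    have h2 : Tendsto (fun n => inner ℂ (K hα hw) (u n)) atTop (𝓝 (inner ℂ (K hα hw) f)) :=
      ((innerSL ℂ (K hα hw)).continuous.tendsto f).comp huf
    simpa only [inner_K] using h2
  refine ⟨?_, ?_⟩
  · have h3 : TendstoInMeasure (mu α) (fun n => (u n : ℂ → ℂ)) atTop (f : ℂ → ℂ) :=
      tendstoInMeasure_of_tendsto_Lp huf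
    obtain ⟨ns, hns, h4⟩ := h3.exists_seq_tendsto_ae
    have h5 : ∀ᵐ z ∂(mu α), ∀ n, (u n : ℂ → ℂ) z = G α (u n) z := by
      rw [ae_all_iff]
      intro n
      exact (hu n).1
    filter_upwards [h4, h5, norm_le_one_ae (α := α)] with z h6 h7 h8
    have h9 : Tendsto (fun n => (u (ns n) : ℂ → ℂ) z) atTop (𝓝 (G α f z)) := by
      have := (h1 z h8).comp hns.tendsto_atTop
      refine this.congr fun n => ?_
      exact (h7 (ns n)).symm
    exact tendsto_nhds_unique h6 h9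
  · have h2 := h1 p hp
    have h3 : ∀ n, G α (u n) p = 0 := fun n => (hu n).2
    simp only [h3] at h2
    exact tendsto_nhds_unique h2 tendsto_const_nhds |>.symm ▸ rfl

lemma mem_V_of_hol (hα : 4 < α) {p : ℂ} (hp : ‖p‖ < 1) {f : Lp ℂ 2 (mu α)} {g : ℂ → ℂ}
    (hg : DifferentiableOn ℂ g (ball (0 : ℂ) 1)) (h : (f : ℂ → ℂ) =ᵐ[mu α] g) (h0 : g p = 0) :
    f ∈ V hα hp := by
  have h1 : ∀ w : ℂ, ‖w‖ < 1 → G α f w = g w := fun w hw => G_hol hα hg (Lp_int hα f) h hw
  refine ⟨?_, by rw [h1 p hp, h0]⟩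
  filter_upwards [h, norm_le_one_ae (α := α)] with z h2 h3
  rw [h2, h1 z h3]

end

end Pool.Agent.W753.BG
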